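import Pool.Agent.Helper509.SQ.Index

/-! Commuting Fredholm pairs whose difference is compact.

If `A` has a finite-dimensional kernel and cokernel, `K` is compact and commutes with `A`, the
joint kernel of `(A, K)` is trivial and the ranges of `A` and `K` together span, then
`dim ker A = dim coker A`. -/

set_option autoImplicit false

open Module Filter Topology

namespace Pool.Agent.V5helper29.CP

open Pool.Agent.Helper509.SQ

/-- The value of the index of an operator with a finite-dimensional kernel and cokernel. -/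
lemma bd_index {X Y : Type} [NormedAddCommGroup X] [NormedSpace ℂ X]
    [NormedAddCommGroup Y] [NormedSpace ℂ Y] [CompleteSpace X] [CompleteSpace Y]
    (T : X →L[ℂ] Y)
    (h1 : FiniteDimensional ℂ (LinearMap.ker (T : X →ₗ[ℂ] Y)))
    (h2 : FiniteDimensional ℂ (Y ⧸ LinearMap.range (T : X →ₗ[ℂ] Y))) :
    Bd T ((finrank ℂ (LinearMap.ker (T : X →ₗ[ℂ] Y)) : ℤ) -
      finrank ℂ (Y ⧸ LinearMap.range (T : X →ₗ[ℂ] Y))) := by
  set N := LinearMap.ker (T : X →ₗ[ℂ] Y) with hN
  set R := LinearMap.range (T : X →ₗ[ℂ] Y) with hR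
  obtain ⟨C, hC⟩ := Submodule.exists_isCompl R
  have hCf : FiniteDimensional ℂ C :=
    (Submodule.quotientEquivOfIsCompl R C hC).finiteDimensional
  obtain ⟨P, hP⟩ := Submodule.ClosedComplemented.of_finiteDimensional N
  have := FiniteDimensional.complete ℂ C
  have := FiniteDimensional.complete ℂ N
  let f : (X × C) →L[ℂ] (Y × N) :=
    (T.comp (ContinuousLinearMap.fst ℂ X C) + C.subtypeL.comp (ContinuousLinearMap.snd ℂ X C)).prod
      (P.comp (ContinuousLinearMap.fst ℂ X C))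
  have hf : ∀ x c, f (x, c) = (T x + c, P x) := fun x c => rfl
  have hinj : LinearMap.ker (f : (X × C) →ₗ[ℂ] (Y × N)) = ⊥ := by
    rw [LinearMap.ker_eq_bot']
    rintro ⟨x, c⟩ h
    have h' : (T x + (c : Y), P x) = 0 := h
    have h3 : T x + (c : Y) = 0 := congrArg Prod.fst h'
    have h4 : P x = 0 := congrArg Prod.snd h'
    have h5 : (c : Y) = 0 := by
      have h6 : (c : Y) ∈ R := by
        rw [eq_neg_of_add_eq_zero_right h3]
        exact R.neg_mem ⟨x, rfl⟩
      exact (Submodule.disjoint_def.1 hC.disjoint) _ h6 c.2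
    have h6 : x ∈ N := by
      rw [h5, add_zero] at h3
      exact h3
    have h7 : x = 0 := by
      have h8 := hP ⟨x, h6⟩
      have h9 : P x = ⟨x, h6⟩ := h8
      rw [h4] at h9
      exact (congrArg Subtype.val h9).symm
    rw [h7]
    exact Prod.ext rfl (Subtype.ext h5)
  have hsurj : LinearMap.range (f : (X × C) →ₗ[ℂ] (Y × N)) = ⊤ := by
    rw [LinearMap.range_eq_top]
    rintro ⟨y, n⟩
    obtain ⟨r, hr, c, hc, hrc⟩ := Submodule.mem_sup.1 (hC.sup_eq_top ▸ Submodule.mem_top (x := y))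
    obtain ⟨x, hx⟩ := hr
    refine ⟨(x + (n - P x : N), ⟨c, hc⟩), ?_⟩
    show (T (x + (n - P x : N)) + c, P (x + (n - P x : N))) = (y, n)
    have h3 : T ((n - P x : N) : X) = 0 := (n - P x : N).2
    have h4 : P ((n - P x : N) : X) = n - P x := hP _
    have h5 : T x = r := hx
    rw [map_add, h3, add_zero, map_add, h4, h5, hrc]
    simp
  refine ⟨N, C, inferInstance, inferInstance, h1, inferInstance, inferInstance, hCf,
    ContinuousLinearEquiv.ofBijective f hinj hsurj, ?_, fun x => ?_⟩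
  · rw [(Submodule.quotientEquivOfIsCompl R C hC).finrank_eq]
  · show (f (x, 0)).1 = T x
    rw [hf]
    simp

/-- Index zero means equal dimensions of kernel and cokernel. -/
lemma finrank_eq_of_bd {X : Type} [NormedAddCommGroup X] [NormedSpace ℂ X] [CompleteSpace X]
    {T T' : X →L[ℂ] X}
    (h1 : FiniteDimensional ℂ (LinearMap.ker (T : X →ₗ[ℂ] X)))
    (h2 : FiniteDimensional ℂ (X ⧸ LinearMap.range (T : X →ₗ[ℂ] X)))
    (h1' : FiniteDimensional ℂ (LinearMap.ker (T' : X →ₗ[ℂ] X)))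
    (h2' : FiniteDimensional ℂ (X ⧸ LinearMap.range (T' : X →ₗ[ℂ] X)))
    (hK : IsCompactOperator (T' - T : X →L[ℂ] X)) :
    (finrank ℂ (LinearMap.ker (T : X →ₗ[ℂ] X)) : ℤ) -
      finrank ℂ (X ⧸ LinearMap.range (T : X →ₗ[ℂ] X)) =
    (finrank ℂ (LinearMap.ker (T' : X →ₗ[ℂ] X)) : ℤ) -
      finrank ℂ (X ⧸ LinearMap.range (T' : X →ₗ[ℂ] X)) :=
  (bd_index T h1 h2).unique (bd_index T' h1' h2') hK

/-- Compact perturbations of the identity have index zero. -/
lemma index_one_add {X : Type} [NormedAddCommGroup X] [NormedSpace ℂ X] [CompleteSpace X]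
    {C : X →L[ℂ] X} (hC : IsCompactOperator (C - 1 : X →L[ℂ] X)) :
    finrank ℂ (LinearMap.ker (C : X →ₗ[ℂ] X)) =
      finrank ℂ (X ⧸ LinearMap.range (C : X →ₗ[ℂ] X)) := by
  have h1 := bd_index C (ker_fin hC) (quot_fin hC)
  have h2 : Bd (1 : X →L[ℂ] X) 0 := bd_equiv (ContinuousLinearEquiv.refl ℂ X)
  have h3 := h2.unique h1 hC
  omega

lemma pow_sub_one_compact {X : Type} [NormedAddCommGroup X] [NormedSpace ℂ X]
    {C : X →L[ℂ] X} (hC : IsCompactOperator (C - 1 : X →L[ℂ] X)) (m : ℕ) :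
    IsCompactOperator (C ^ m - 1 : X →L[ℂ] X) := by
  rw [← mul_geom_sum C m]
  exact hC.comp_clm _

variable {H : Type} [NormedAddCommGroup H] [InnerProductSpace ℂ H] [CompleteSpace H]

lemma pow_apply_succ (C : H →L[ℂ] H) (m : ℕ) (x : H) : (C ^ (m + 1)) x = (C ^ m) (C x) := by
  rw [pow_succ]; rfl

lemma pow_apply_succ' (C : H →L[ℂ] H) (m : ℕ) (x : H) : (C ^ (m + 1)) x = C ((C ^ m) x) := by
  rw [pow_succ']; rfl

lemma pow_zero_of_le {C : H →L[ℂ] H} {m n : ℕ} (h : m ≤ n) {x : H} (hx : (C ^ m) x = 0) :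
    (C ^ n) x = 0 := by
  obtain ⟨k, rfl⟩ := Nat.exists_eq_add_of_le' h
  rw [pow_add]
  show (C ^ k) ((C ^ m) x) = 0
  rw [hx, map_zero]

/-- Compact perturbations of the identity have finite ascent. -/
lemma exists_ascent {C : H →L[ℂ] H} (hC : IsCompactOperator (C - 1 : H →L[ℂ] H)) :
    ∃ m, ∀ x, (C ^ (m + 1)) x = 0 → (C ^ m) x = 0 := by
  by_contra hcon
  push Not at hcon
  -- unit vectors in the kernel of `C ^ (m+1)` orthogonal to the kernel of `C ^ m`
  have hex : ∀ m, ∃ x : H, (C ^ (m + 1)) x = 0 ∧ ‖x‖ = 1 ∧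
      ∀ z, (C ^ m) z = 0 → inner ℂ x z = 0 := by
    intro m
    obtain ⟨v, hv1, hv2⟩ := hcon m
    let N : Submodule ℂ H := LinearMap.ker ((C ^ m : H →L[ℂ] H) : H →ₗ[ℂ] H)
    have hNc : IsClosed (N : Set H) := ContinuousLinearMap.isClosed_ker (C ^ m)
    have : CompleteSpace N := hNc.completeSpace_coe
    let w : H := v - (N.orthogonalProjectionOnto v : H)
    have hPN : (C ^ m) (N.orthogonalProjectionOnto v : H) = 0 := (N.orthogonalProjectionOnto v).2
    have hw1 : (C ^ (m + 1)) w = 0 := by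
      show (C ^ (m + 1)) (v - (N.orthogonalProjectionOnto v : H)) = 0
      rw [map_sub, hv1, pow_zero_of_le (Nat.le_succ m) hPN, sub_zero]
    have hw2 : w ≠ 0 := by
      intro h0
      apply hv2
      have h1 : v = (N.orthogonalProjectionOnto v : H) := sub_eq_zero.1 h0
      rw [h1]
      exact hPN
    have hw3 : ∀ z, (C ^ m) z = 0 → inner ℂ w z = 0 := by
      intro z hz
      have h1 : w ∈ Nᗮ := Submodule.sub_starProjection_mem_orthogonal v
      exact (Submodule.mem_orthogonal' N w).1 h1 z hz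
    refine ⟨((‖w‖ : ℂ)⁻¹) • w, ?_, ?_, ?_⟩
    · rw [map_smul, hw1, smul_zero]
    · rw [norm_smul, norm_inv, Complex.norm_real, norm_norm,
        inv_mul_cancel₀ (norm_ne_zero_iff.2 hw2)]
    · intro z hz
      rw [inner_smul_left, hw3 z hz, mul_zero]
  choose x hx1 hx2 hx3 using hex
  set K : H →L[ℂ] H := C - 1 with hKdef
  have hsep : ∀ m n, n < m → 1 ≤ ‖K (x m) - K (x n)‖ := by
    intro m n hnm
    have h1 : K (x m) - K (x n) = -x m + (C (x m) - C (x n) + x n) := by
      show (C (x m) - x m) - (C (x n) - x n) = -x m + (C (x m) - C (x n) + x n)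
      abel
    have h2 : (C ^ m) (C (x m) - C (x n) + x n) = 0 := by
      rw [map_add, map_sub, ← pow_apply_succ, ← pow_apply_succ, hx1 m,
        pow_zero_of_le (show n + 1 ≤ m + 1 by omega) (hx1 n),
        pow_zero_of_le (show n + 1 ≤ m by omega) (hx1 n)]
      simp
    have h3 : inner ℂ (x m) (K (x m) - K (x n)) = -1 := by
      rw [h1, inner_add_right, hx3 m _ h2, inner_neg_right, inner_self_eq_norm_sq_to_K, hx2 m]
      simp
    have h4 := norm_inner_le_norm (𝕜 := ℂ) (x m) (K (x m) - K (x n))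
    rw [h3, hx2 m, one_mul, norm_neg, norm_one] at h4
    exact h4
  obtain ⟨S, hS, hS'⟩ := hC.image_closedBall_subset_compact 1
  obtain ⟨y, hyS, φ, hφ, hφy⟩ := hS.tendsto_subseq (x := fun n => K (x n))
    (fun n => hS' ⟨x n, by simp [hx2 n], rfl⟩)
  have hcau := hφy.cauchySeq
  rw [Metric.cauchySeq_iff'] at hcau
  obtain ⟨N, hN⟩ := hcau 1 one_pos
  have h5 := hN (N + 1) (Nat.le_succ N)
  rw [dist_eq_norm] at h5
  have h6 := hsep (φ (N + 1)) (φ N) (hφ (Nat.lt_succ_self N))
  exact absurd h5 (not_lt.2 h6)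

/-- The Fitting decomposition of a compact perturbation of the identity. -/
lemma exists_fitting {C : H →L[ℂ] H} (hC : IsCompactOperator (C - 1 : H →L[ℂ] H)) :
    ∃ m, 1 ≤ m ∧ FiniteDimensional ℂ (LinearMap.ker ((C ^ m : H →L[ℂ] H) : H →ₗ[ℂ] H)) ∧
      IsCompl (LinearMap.ker ((C ^ m : H →L[ℂ] H) : H →ₗ[ℂ] H))
        (LinearMap.range ((C ^ m : H →L[ℂ] H) : H →ₗ[ℂ] H)) := by
  obtain ⟨m0, hm0⟩ := exists_ascent hC
  have hst : ∀ k x, (C ^ (m0 + k)) x = 0 → (C ^ m0) x = 0 := by
    intro k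
    induction k with
    | zero => intro x hx; exact hx
    | succ k ih =>
      intro x hx
      have h1 : (C ^ (m0 + 1)) ((C ^ k) x) = 0 := by
        have h2 : (C ^ (m0 + 1)) ((C ^ k) x) = (C ^ (m0 + (k + 1))) x := by
          rw [show m0 + (k + 1) = (m0 + 1) + k by ring, pow_add C (m0 + 1) k]; rfl
        rw [h2, hx]
      have h3 := hm0 _ h1
      apply ih
      rw [pow_add]
      exact h3
  set m := m0 + 1 with hm
  have hst' : ∀ x, (C ^ (m + m)) x = 0 → (C ^ m) x = 0 := by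
    intro x hx
    have h1 : (C ^ (m0 + (m0 + 2))) x = 0 := by
      have : m0 + (m0 + 2) = m + m := by omega
      rw [this]; exact hx
    exact pow_zero_of_le (Nat.le_succ m0) (hst _ _ h1)
  have hCm := pow_sub_one_compact hC m
  have hkf := ker_fin hCm
  have hqf := quot_fin hCm
  have hfr := index_one_add hCm
  refine ⟨m, by omega, hkf, ?_⟩
  set N := LinearMap.ker ((C ^ m : H →L[ℂ] H) : H →ₗ[ℂ] H) with hN
  set R := LinearMap.range ((C ^ m : H →L[ℂ] H) : H →ₗ[ℂ] H) with hR
  have hdis : Disjoint N R := by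
    rw [Submodule.disjoint_def]
    rintro y hy1 ⟨x, hx⟩
    have hx' : (C ^ m) x = y := hx
    have hy1' : (C ^ m) y = 0 := hy1
    have h1 : (C ^ (m + m)) x = 0 := by
      rw [pow_add]
      show (C ^ m) ((C ^ m) x) = 0
      rw [hx', hy1']
    rw [← hx']
    exact hst' x h1
  refine ⟨hdis, ?_⟩
  -- the map `N → H ⧸ R` is injective between spaces of equal dimension
  let φ : N →ₗ[ℂ] (H ⧸ R) := R.mkQ ∘ₗ N.subtype
  have hφ : Function.Injective φ := by
    rw [injective_iff_map_eq_zero]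
    intro n hn
    have h1 : (n : H) ∈ R := (Submodule.Quotient.mk_eq_zero R).1 hn
    exact Subtype.ext ((Submodule.disjoint_def.1 hdis) n n.2 h1)
  have hφs : Function.Surjective φ :=
    (LinearMap.injective_iff_surjective_of_finrank_eq_finrank hfr).1 hφ
  rw [codisjoint_iff, eq_top_iff]
  intro y _
  obtain ⟨n, hn⟩ := hφs (R.mkQ y)
  have h1 : y - n ∈ R := by
    rw [← Submodule.Quotient.mk_eq_zero R]
    have h2 : R.mkQ (y - n) = 0 := by
      rw [map_sub, sub_eq_zero]
      exact hn.symm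
    exact h2
  rw [← add_sub_cancel (n : H) y]
  exact Submodule.add_mem_sup n.2 h1

/-- The linear algebra step. -/
lemma alg {V : Type} [AddCommGroup V] [Module ℂ V] {A N : V →ₗ[ℂ] V}
    (hk : ∀ x, A x = 0 → N x = 0) (hr : ∀ x, ∃ z, A z = N x)
    (hcN : ∀ x, A (N x) = N (A x))
    (hc : IsCompl (LinearMap.ker N) (LinearMap.range N))
    (hf : FiniteDimensional ℂ (LinearMap.ker N)) :
    finrank ℂ (LinearMap.ker A) = finrank ℂ (V ⧸ LinearMap.range A) := by
  have hAN : ∀ x ∈ LinearMap.ker N, A x ∈ LinearMap.ker N := by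
    intro x hx
    have hx' : N x = 0 := hx
    show N (A x) = 0
    rw [← hcN, hx', map_zero]
  let AN : LinearMap.ker N →ₗ[ℂ] LinearMap.ker N := A.restrict hAN
  have h1 : (LinearMap.ker AN).map (LinearMap.ker N).subtype = LinearMap.ker A := by
    ext x
    constructor
    · rintro ⟨y, hy, rfl⟩
      have : AN y = 0 := hy
      exact congrArg Subtype.val this
    · intro hx
      have hx' : A x = 0 := hx
      exact ⟨⟨x, hk x hx'⟩, Subtype.ext hx', rfl⟩
  have h2 : finrank ℂ (LinearMap.ker AN) = finrank ℂ (LinearMap.ker A) := by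
    rw [← h1]
    exact (Submodule.finrank_map_subtype_eq _ _).symm
  let φ : LinearMap.ker N →ₗ[ℂ] (V ⧸ LinearMap.range A) :=
    (LinearMap.range A).mkQ ∘ₗ (LinearMap.ker N).subtype
  have hφs : LinearMap.range φ = ⊤ := by
    rw [LinearMap.range_eq_top]
    intro q
    obtain ⟨y, rfl⟩ := (LinearMap.range A).mkQ_surjective q
    obtain ⟨n, hn, r, hr', hnr⟩ := Submodule.mem_sup.1
      (hc.sup_eq_top ▸ Submodule.mem_top (x := y))
    refine ⟨⟨n, hn⟩, ?_⟩
    show (LinearMap.range A).mkQ n = (LinearMap.range A).mkQ y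
    rw [← hnr, map_add]
    have h3 : (LinearMap.range A).mkQ r = 0 := by
      obtain ⟨x, rfl⟩ := hr'
      obtain ⟨z, hz⟩ := hr x
      exact (Submodule.Quotient.mk_eq_zero _).2 ⟨z, hz⟩
    rw [h3, add_zero]
  have hφk : LinearMap.ker φ = LinearMap.range AN := by
    ext n
    constructor
    · intro hn
      have h3 : (n : V) ∈ LinearMap.range A := (Submodule.Quotient.mk_eq_zero _).1 hn
      obtain ⟨z, hz⟩ := h3
      obtain ⟨a, ha, r, hr', har⟩ := Submodule.mem_sup.1
        (hc.sup_eq_top ▸ Submodule.mem_top (x := z))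
      have h4 : A r = 0 := by
        refine (Submodule.disjoint_def.1 hc.disjoint) _ ?_ ?_
        · have h5 : A r = n - A a := by
            rw [← hz, ← har, map_add]; abel
          rw [h5]
          exact (LinearMap.ker N).sub_mem n.2 (hAN a ha)
        · obtain ⟨x, rfl⟩ := hr'
          exact ⟨A x, (hcN x).symm⟩
      refine ⟨⟨a, ha⟩, Subtype.ext ?_⟩
      show A a = n
      rw [← hz, ← har, map_add, h4, add_zero]
    · rintro ⟨a, rfl⟩
      show (LinearMap.range A).mkQ (A a) = 0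
      exact (Submodule.Quotient.mk_eq_zero _).2 ⟨a, rfl⟩
  have h3 := LinearMap.finrank_range_add_finrank_ker φ
  have h4 := LinearMap.finrank_range_add_finrank_ker AN
  rw [hφs, hφk, finrank_top] at h3
  omega

/-- Intertwining passes to polynomials. -/
lemma aeval_intertwine {V W : Type} [AddCommGroup V] [Module ℂ V] [AddCommGroup W] [Module ℂ W]
    (f : V →ₗ[ℂ] V) (g : W →ₗ[ℂ] W) (i : V →ₗ[ℂ] W) (h : ∀ x, i (f x) = g (i x))
    (p : Polynomial ℂ) (x : V) :
    i (Polynomial.aeval f p x) = Polynomial.aeval g p (i x) := by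
  induction p using Polynomial.induction_on generalizing x with
  | C a => simp
  | add p q hp hq => simp [map_add, hp, hq]
  | monomial n a ih =>
    rw [pow_succ, ← mul_assoc, map_mul (Polynomial.aeval f), map_mul (Polynomial.aeval g),
      Polynomial.aeval_X, Polynomial.aeval_X]
    show i ((Polynomial.aeval f _) (f x)) = (Polynomial.aeval g _) (g (i x))
    rw [ih, h]

lemma aeval_coe {V : Type} [NormedAddCommGroup V] [NormedSpace ℂ V] (K : V →L[ℂ] V)
    (p : Polynomial ℂ) (x : V) :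
    (Polynomial.aeval K p) x = Polynomial.aeval (K : V →ₗ[ℂ] V) p x := by
  induction p using Polynomial.induction_on generalizing x with
  | C a => simp
  | add p q hp hq => simp [map_add, hp, hq]
  | monomial n a ih =>
    rw [pow_succ, ← mul_assoc, map_mul (Polynomial.aeval K),
      map_mul (Polynomial.aeval (K : V →ₗ[ℂ] V)), Polynomial.aeval_X, Polynomial.aeval_X]
    show (Polynomial.aeval K _) (K x) = (Polynomial.aeval (K : V →ₗ[ℂ] V) _) (K x)
    rw [ih]

/-- A polynomial that kills an injective endomorphism of a finite-dimensional space and does not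
vanish at `0`. -/
lemma exists_poly {V : Type} [AddCommGroup V] [Module ℂ V] [FiniteDimensional ℂ V]
    (f : V →ₗ[ℂ] V) (hf : ∀ x, f x = 0 → x = 0) :
    ∃ p : Polynomial ℂ, p.coeff 0 ≠ 0 ∧ ∀ x, Polynomial.aeval f p x = 0 := by
  refine ⟨f.charpoly, ?_, ?_⟩
  · intro h0
    have h1 : f.charpoly.IsRoot 0 := by
      rw [Polynomial.IsRoot.def, ← Polynomial.coeff_zero_eq_eval_zero, h0]
    rw [← Module.End.hasEigenvalue_iff_isRoot_charpoly] at h1
    obtain ⟨v, hv⟩ := h1.exists_hasEigenvector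
    exact hv.2 (hf v (by rw [hv.apply_eq_smul, zero_smul]))
  · intro x
    rw [LinearMap.aeval_self_charpoly]
    rfl

/-- The main step: the index of `A` vanishes. -/
theorem index_eq_zero (A K : H →L[ℂ] H) (hAK : ∀ x, A (K x) = K (A x))
    (hK : IsCompactOperator K)
    (hker : FiniteDimensional ℂ (LinearMap.ker (A : H →ₗ[ℂ] H)))
    (hcoker : FiniteDimensional ℂ (H ⧸ LinearMap.range (A : H →ₗ[ℂ] H)))
    (h0 : ∀ x, A x = 0 → K x = 0 → x = 0)
    (h1 : ∀ y, ∃ u v, A u + K v = y) :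
    finrank ℂ (LinearMap.ker (A : H →ₗ[ℂ] H)) =
      finrank ℂ (H ⧸ LinearMap.range (A : H →ₗ[ℂ] H)) := by
  set N := LinearMap.ker (A : H →ₗ[ℂ] H) with hN
  set R := LinearMap.range (A : H →ₗ[ℂ] H) with hR
  -- the restriction of `K` to the kernel of `A`
  have hKN : ∀ x ∈ N, (K : H →ₗ[ℂ] H) x ∈ N := by
    intro x hx
    have hx' : A x = 0 := hx
    show A (K x) = 0
    rw [hAK, hx', map_zero]
  let KN : N →ₗ[ℂ] N := (K : H →ₗ[ℂ] H).restrict hKN
  obtain ⟨p, hp0, hp⟩ := exists_poly KN (by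
    intro x hx
    have h2 : K (x : H) = 0 := congrArg Subtype.val hx
    exact Subtype.ext (h0 x x.2 h2))
  -- the map induced by `K` on the cokernel of `A`
  have hKR : R ≤ R.comap (K : H →ₗ[ℂ] H) := by
    rintro _ ⟨x, rfl⟩
    show K (A x) ∈ R
    rw [← hAK]
    exact ⟨K x, rfl⟩
  let KR : (H ⧸ R) →ₗ[ℂ] (H ⧸ R) := R.mapQ R (K : H →ₗ[ℂ] H) hKR
  have hKRs : Function.Surjective KR := by
    intro q
    obtain ⟨y, rfl⟩ := R.mkQ_surjective q
    obtain ⟨u, v, huv⟩ := h1 y
    refine ⟨R.mkQ v, ?_⟩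
    show R.mkQ (K v) = R.mkQ y
    rw [← huv, map_add]
    have h3 : R.mkQ (A u) = 0 := (Submodule.Quotient.mk_eq_zero R).2 ⟨u, rfl⟩
    rw [h3, zero_add]
  have hKRi : Function.Injective KR := LinearMap.injective_iff_surjective.2 hKRs
  obtain ⟨q, hq0, hq⟩ := exists_poly KR (fun x hx => hKRi (by rw [hx, map_zero]))
  -- the operator `C`
  set r : Polynomial ℂ := p * q with hr
  have hr0 : r.coeff 0 ≠ 0 := by
    rw [hr, Polynomial.mul_coeff_zero]
    exact mul_ne_zero hp0 hq0
  let B : H →L[ℂ] H := Polynomial.aeval K r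
  have hBl : ∀ x, B x = Polynomial.aeval (K : H →ₗ[ℂ] H) r x := fun x => aeval_coe K r x
  -- `B` kills the kernel of `A`
  have hB1 : ∀ x, A x = 0 → B x = 0 := by
    intro x hx
    have h2 := aeval_intertwine KN (K : H →ₗ[ℂ] H) N.subtype (fun _ => rfl) r ⟨x, hx⟩
    have h3 : Polynomial.aeval KN r ⟨x, hx⟩ = 0 := by
      rw [hr, mul_comm, map_mul]
      show (Polynomial.aeval KN q) (Polynomial.aeval KN p ⟨x, hx⟩) = 0
      rw [hp, map_zero]
    rw [h3, map_zero] at h2
    rw [hBl]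
    exact h2.symm
  -- `B` maps into the range of `A`
  have hB2 : ∀ x, ∃ z, A z = B x := by
    intro x
    have h2 := aeval_intertwine (K : H →ₗ[ℂ] H) KR R.mkQ (fun _ => rfl) r x
    have h3 : Polynomial.aeval KR r (R.mkQ x) = 0 := by
      rw [hr, map_mul]
      show (Polynomial.aeval KR p) (Polynomial.aeval KR q (R.mkQ x)) = 0
      rw [hq, map_zero]
    rw [h3] at h2
    have h4 : B x ∈ R := by
      rw [hBl]
      exact (Submodule.Quotient.mk_eq_zero R).1 h2
    exact h4
  have hAB : ∀ x, A (B x) = B (A x) := by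
    intro x
    rw [hBl, hBl]
    exact aeval_intertwine (K : H →ₗ[ℂ] H) (K : H →ₗ[ℂ] H) (A : H →ₗ[ℂ] H) hAK r x
  -- the normalised operator
  let C : H →L[ℂ] H := (r.coeff 0)⁻¹ • B
  have hC1 : IsCompactOperator (C - 1 : H →L[ℂ] H) := by
    have h2 : B = K * Polynomial.aeval K r.divX + (r.coeff 0) • 1 := by
      show Polynomial.aeval K r = _
      conv_lhs => rw [← Polynomial.X_mul_divX_add r]
      rw [map_add, map_mul, Polynomial.aeval_X, Polynomial.aeval_C, Algebra.algebraMap_eq_smul_one]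
    have h3 : (C - 1 : H →L[ℂ] H) = (r.coeff 0)⁻¹ • (K * Polynomial.aeval K r.divX) := by
      show (r.coeff 0)⁻¹ • B - 1 = _
      rw [h2, smul_add, smul_smul, inv_mul_cancel₀ hr0, one_smul, add_sub_cancel_right]
    rw [h3]
    exact (hK.comp_clm (Polynomial.aeval K r.divX)).smul _
  obtain ⟨m, hm, hmf, hmc⟩ := exists_fitting hC1
  have hCA : ∀ x, A (C x) = C (A x) := by
    intro x
    show A ((r.coeff 0)⁻¹ • B x) = (r.coeff 0)⁻¹ • B (A x)
    rw [map_smul, hAB]
  have hCAm : ∀ k x, A ((C ^ k) x) = (C ^ k) (A x) := by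
    intro k
    induction k with
    | zero => intro x; rfl
    | succ k ih =>
      intro x
      rw [pow_apply_succ, ih, hCA, ← pow_apply_succ]
  refine alg (N := ((C ^ m : H →L[ℂ] H) : H →ₗ[ℂ] H)) ?_ ?_ (hCAm m) hmc hmf
  · intro x hx
    have h2 : (C ^ 1) x = 0 := by
      rw [pow_one]
      show (r.coeff 0)⁻¹ • B x = 0
      rw [hB1 x hx, smul_zero]
    exact pow_zero_of_le hm h2
  · intro x
    obtain ⟨k, rfl⟩ := Nat.exists_eq_add_of_le' hm
    obtain ⟨z, hz⟩ := hB2 ((C ^ k) x)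
    refine ⟨(r.coeff 0)⁻¹ • z, ?_⟩
    have h2 : A z = B ((C ^ k) x) := hz
    show A ((r.coeff 0)⁻¹ • z) = (C ^ (k + 1)) x
    rw [map_smul, h2, pow_apply_succ']
    rfl

/-- A parametrix of an operator with a finite-dimensional kernel and cokernel. -/
lemma exists_parametrix {X : Type} [NormedAddCommGroup X] [NormedSpace ℂ X] [CompleteSpace X]
    (T : X →L[ℂ] X)
    (h1 : FiniteDimensional ℂ (LinearMap.ker (T : X →ₗ[ℂ] X)))
    (h2 : FiniteDimensional ℂ (X ⧸ LinearMap.range (T : X →ₗ[ℂ] X))) :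
    ∃ S : X →L[ℂ] X, IsCompactOperator (S.comp T - 1 : X →L[ℂ] X) ∧
      IsCompactOperator (T.comp S - 1 : X →L[ℂ] X) := by
  obtain ⟨F, G, i1, i2, i3, i4, i5, i6, M, -, hM⟩ := bd_index T h1 h2
  let S : X →L[ℂ] X := (ContinuousLinearMap.fst ℂ X G).comp
    ((M.symm : (X × F) →L[ℂ] (X × G)).comp (ContinuousLinearMap.inl ℂ X F))
  have hS : ∀ x, S x = (M.symm (x, 0)).1 := fun _ => rfl
  refine ⟨S, ?_, ?_⟩
  · -- `S T x - x = - (M.symm (0, (M (x,0)).2)).1`
    let a : X →L[ℂ] F := (ContinuousLinearMap.snd ℂ X F).comp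
      ((M : (X × G) →L[ℂ] (X × F)).comp (ContinuousLinearMap.inl ℂ X G))
    let b : F →L[ℂ] X := (ContinuousLinearMap.fst ℂ X G).comp
      ((M.symm : (X × F) →L[ℂ] (X × G)).comp (ContinuousLinearMap.inr ℂ X F))
    have h3 : (S.comp T - 1 : X →L[ℂ] X) = -(b.comp a) := by
      ext x
      show (M.symm (T x, 0)).1 - x = -(M.symm (0, (M (x, 0)).2)).1
      have h4 : M.symm (T x, 0) + M.symm (0, (M (x, 0)).2) = (x, 0) := by
        rw [← map_add, ← hM]
        have h5 : (((M (x, 0)).1, (0 : F)) : X × F) + (0, (M (x, 0)).2) = M (x, 0) :=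
          Prod.ext (add_zero _) (zero_add _)
        rw [h5, M.symm_apply_apply]
      have h5 : (M.symm (T x, 0)).1 + (M.symm (0, (M (x, 0)).2)).1 = x := congrArg Prod.fst h4
      have h6 := eq_sub_of_add_eq h5
      rw [h6]; abel
    rw [h3]
    exact ((compact_of_finrank a).clm_comp b).neg
  · let a : X →L[ℂ] G := (ContinuousLinearMap.snd ℂ X G).comp
      ((M.symm : (X × F) →L[ℂ] (X × G)).comp (ContinuousLinearMap.inl ℂ X F))
    let b : G →L[ℂ] X := (ContinuousLinearMap.fst ℂ X F).comp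
      ((M : (X × G) →L[ℂ] (X × F)).comp (ContinuousLinearMap.inr ℂ X G))
    have h3 : (T.comp S - 1 : X →L[ℂ] X) = -(b.comp a) := by
      ext x
      show T (M.symm (x, 0)).1 - x = -(M (0, (M.symm (x, 0)).2)).1
      have h4 : M ((M.symm (x, 0)).1, 0) + M (0, (M.symm (x, 0)).2) = (x, 0) := by
        rw [← map_add]
        have h5 : (((M.symm (x, 0)).1, (0 : G)) : X × G) + (0, (M.symm (x, 0)).2) =
            M.symm (x, 0) := Prod.ext (add_zero _) (zero_add _)
        rw [h5, M.apply_symm_apply]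
      have h5 : (M ((M.symm (x, 0)).1, 0)).1 + (M (0, (M.symm (x, 0)).2)).1 = x :=
        congrArg Prod.fst h4
      rw [hM] at h5
      have h6 := eq_sub_of_add_eq h5
      rw [h6]; abel
    rw [h3]
    exact ((compact_of_finrank a).clm_comp b).neg

/-- Operators with a parametrix have a finite-dimensional kernel and cokernel. -/
lemma fin_of_inv {X : Type} [NormedAddCommGroup X] [NormedSpace ℂ X] [CompleteSpace X]
    (T S : X →L[ℂ] X)
    (h1 : IsCompactOperator (S.comp T - 1 : X →L[ℂ] X))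
    (h2 : IsCompactOperator (T.comp S - 1 : X →L[ℂ] X)) :
    FiniteDimensional ℂ (LinearMap.ker (T : X →ₗ[ℂ] X)) ∧
    FiniteDimensional ℂ (X ⧸ LinearMap.range (T : X →ₗ[ℂ] X)) := by
  refine ⟨?_, ?_⟩
  · have := ker_fin h1
    refine Submodule.finiteDimensional_of_le
      (S₂ := LinearMap.ker ((S.comp T : X →L[ℂ] X) : X →ₗ[ℂ] X)) ?_
    intro x hx
    have hx' : T x = 0 := hx
    show S (T x) = 0
    rw [hx', map_zero]
  · have := quot_fin h2
    have hle : LinearMap.range ((T.comp S : X →L[ℂ] X) : X →ₗ[ℂ] X) ≤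
        LinearMap.range (T : X →ₗ[ℂ] X) := by
      rintro _ ⟨y, rfl⟩
      exact ⟨S y, rfl⟩
    exact Module.Finite.of_surjective (Submodule.factor hle) (Submodule.factor_surjective hle)

/-- In index zero a compact perturbation is bijective. -/
lemma exists_bijective {X : Type} [NormedAddCommGroup X] [NormedSpace ℂ X] [CompleteSpace X]
    (T : X →L[ℂ] X)
    (h1 : FiniteDimensional ℂ (LinearMap.ker (T : X →ₗ[ℂ] X)))
    (h2 : FiniteDimensional ℂ (X ⧸ LinearMap.range (T : X →ₗ[ℂ] X)))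
    (h : finrank ℂ (LinearMap.ker (T : X →ₗ[ℂ] X)) =
      finrank ℂ (X ⧸ LinearMap.range (T : X →ₗ[ℂ] X))) :
    ∃ K : X →L[ℂ] X, IsCompactOperator K ∧ Function.Bijective (T + K : X →L[ℂ] X) := by
  set N := LinearMap.ker (T : X →ₗ[ℂ] X) with hN
  set R := LinearMap.range (T : X →ₗ[ℂ] X) with hR
  obtain ⟨C, hC⟩ := Submodule.exists_isCompl R
  have hCf : FiniteDimensional ℂ C :=
    (Submodule.quotientEquivOfIsCompl R C hC).finiteDimensional
  obtain ⟨P, hP⟩ := Submodule.ClosedComplemented.of_finiteDimensional N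
  have hfr : finrank ℂ N = finrank ℂ C := by
    rw [h, (Submodule.quotientEquivOfIsCompl R C hC).finrank_eq]
  let j : N ≃ₗ[ℂ] C := LinearEquiv.ofFinrankEq N C hfr
  let J : N →L[ℂ] X := C.subtypeL.comp (LinearMap.toContinuousLinearMap (j : N →ₗ[ℂ] C))
  have hJ : ∀ n, J n = (j n : X) := fun _ => rfl
  have hPv : ∀ n : N, P (n : X) = n := fun n => hP n
  refine ⟨J.comp P, (compact_of_finrank' J).comp_clm P, ?_, ?_⟩
  · rw [injective_iff_map_eq_zero]
    intro x hx
    have hx' : T x + (j (P x) : X) = 0 := hx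
    have h5 : (j (P x) : X) = 0 := by
      have h6 : (j (P x) : X) ∈ R := by
        rw [eq_neg_of_add_eq_zero_right hx']
        exact R.neg_mem ⟨x, rfl⟩
      exact (Submodule.disjoint_def.1 hC.disjoint) _ h6 (j (P x)).2
    have h6 : P x = 0 := by
      have h7 : j (P x) = 0 := Subtype.ext h5
      exact (LinearEquiv.map_eq_zero_iff j).1 h7
    have h8 : x ∈ N := by
      rw [h5, add_zero] at hx'
      exact hx'
    have h9 := hPv ⟨x, h8⟩
    have h10 : P x = ⟨x, h8⟩ := h9
    rw [h6] at h10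
    exact (congrArg Subtype.val h10).symm
  · intro y
    obtain ⟨r, hr, c, hc, hrc⟩ := Submodule.mem_sup.1 (hC.sup_eq_top ▸ Submodule.mem_top (x := y))
    obtain ⟨x, hx⟩ := hr
    have hx' : T x = r := hx
    set n : N := j.symm ⟨c, hc⟩ with hn
    refine ⟨x + ((n - P x : N) : X), ?_⟩
    show T (x + ((n - P x : N) : X)) + (j (P (x + ((n - P x : N) : X))) : X) = y
    have h3 : T ((n - P x : N) : X) = 0 := (n - P x : N).2
    have h4 : P ((n - P x : N) : X) = n - P x := hPv _
    rw [map_add, h3, add_zero, map_add, h4, add_sub_cancel, hn, j.apply_symm_apply, hx', hrc]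

end Pool.Agent.V5helper29.CP
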